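import Pool.Agent.Lead.Tk1

namespace Pool.Agent.Results.MP_570618_gt.Q1

open Pool.Agent.Lead.Gro Pool.Agent.Lead.Tk

theorem result : (Occurs fun B _ => ¬ CountablyTight B) ∧ (Occurs fun B _ => ¬ SequentialSpace B) ∧
    (Occurs fun B _ => ¬ Monolithic B) :=
  ⟨occ_a, occ_b, occ_c⟩

end Pool.Agent.Results.MP_570618_gt.Q1
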